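import Pool.Agent.Run7.h418.Z.Thm

/-!
MP_2a5ae2_ag, Q1: the Green-Griffiths-Lang conjecture for entire curves of bounded derivative in
projective varieties of arbitrary dimension with an immersive family of symmetric differentials.
-/

set_option autoImplicit false

open Pool.Agent.W602.GT Pool.Agent.N155 Pool.Agent.TH182.TC Run7.h418 Run7.h418.Z

namespace Pool.Agent.Results.MP_2a5ae2_ag.BrodyCurvesAndTori

/-- Let `X = {F = 0}` be a complex projective variety with an immersive finite family of symmetric
differentials `σ j` of positive degrees `m j`, and let `p` be a nonconstant holomorphic map from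
the complex plane to `X` of bounded derivative.

(1) There is a holomorphic immersion `g` of a complex torus of dimension `w > 0` into the Zariski
closure `Y` of `p`, such that `p z = g (z d)` for some vector `d`. The dimension of `Y` is `w`, and
`Y` is not of general type.

(2) In particular, if `p` is contained in a closed subvariety `V` of `X` of general type, then `p`
is contained in a proper closed subset of `V`. -/
theorem result {n : ℕ} {ι κ : Type} [Finite κ] {F : ι → MvPolynomial (Fin (n + 1)) ℂ}
    (hF : ∀ i, IsForm (F i)) {m : κ → ℕ} (hm : ∀ j, 0 < m j)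
    {σ : κ → (Fin (n + 1) → ℂ) → (Fin (n + 1) → ℂ) → ℂ} (hσ : ∀ j, SymForm F (m j) (σ j))
    (him : Immersive F σ) (p : ℂ → PS n) (hp : HolMap p) (hpF : ∀ z, OnX F (p z))
    (hb : BoundedDer p) (hne : ∃ z w, p z ≠ p w) :
    (∃ w : ℕ, 0 < w ∧ InTorus F p w ∧
      (∃ (K : Type) (_ : Field K) (_ : Algebra ℂ K) (y : Fin (n + 1) → K),
        IsClosure F p K w y) ∧
      ∀ (K : Type) [Field K] [Algebra ℂ K] (w' : ℕ) (y : Fin (n + 1) → K),
        IsClosure F p K w' y → w' = w ∧ ¬ GeneralType ℂ K w) ∧
    ∀ (K : Type) [Field K] [Algebra ℂ K] (w : ℕ) (y : Fin (n + 1) → K), SubVar F K w y →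
      GeneralType ℂ K w → (∀ z, (p z).rep ∈ VarPts ℂ y) →
      ∃ G : MvPolynomial (Fin (n + 1)) ℂ, IsForm G ∧ val y G ≠ 0 ∧ Van p G :=
  ⟨thm_torus hF hm hσ him hp (fun z => mem_cone.2 ⟨(p z).rep_nonzero, hpF z⟩) hb hne,
    fun _ _ _ _ _ hy hgt hpV => thm_general hF hm hσ him hy hgt hp hpV hb hne⟩

end Pool.Agent.Results.MP_2a5ae2_ag.BrodyCurvesAndTori
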