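import Pool.Agent.Run7.h418.E.Thm

/-!
MP_2a5ae2_ag, Q1: the Green-Griffiths-Lang conjecture for the closed subvarieties of projective
varieties with symmetric differentials which generate a symmetric power of the cotangent sheaf, and
the degeneracy of entire curves for those with an immersive family of symmetric differentials.
-/

set_option autoImplicit false

open Pool.Agent.W602.GT Pool.Agent.N155 Pool.Agent.TH182.TC Run7.h418 Run7.h418.Z

namespace Pool.Agent.Results.MP_2a5ae2_ag.GreenGriffithsLang

/-- Let `X = {F = 0}` be a complex projective variety.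

(1) Suppose that `X` has an immersive finite family of symmetric differentials `σ j` of positive
degrees `m j`. Then the Zariski closure of the image of a nonconstant holomorphic map from the complex
plane to `X` has positive dimension and is not of general type. So if `V` is a closed subvariety of
`X` of general type, then every nonconstant holomorphic map from the complex plane to `V` is contained
in a proper closed subset of `V`; and one proper closed subset of `V` contains all those of bounded
derivative.

(2) Suppose that finitely many symmetric differentials of one degree `d > 0` generate `Sᵈ Ω` on `X`.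
Then a closed subvariety `V` of `X` of positive dimension is of general type if and only if it is
pseudo-Brody hyperbolic: one proper closed subset of `V` contains the images of all nonconstant
holomorphic maps from the complex plane to `V`. It suffices that this holds for the maps of bounded
derivative. -/
theorem result {n : ℕ} {ι κ : Type} [Fintype κ] {F : ι → MvPolynomial (Fin (n + 1)) ℂ}
    (hF : ∀ i, IsForm (F i)) {σ : κ → (Fin (n + 1) → ℂ) → (Fin (n + 1) → ℂ) → ℂ} :
    (∀ m : κ → ℕ, (∀ j, 0 < m j) → (∀ j, SymForm F (m j) (σ j)) → Immersive F σ →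
      (∀ p : ℂ → PS n, HolMap p → (∀ z, (p z).rep ∈ Cone F) → (∃ z w, p z ≠ p w) →
        (∃ (K : Type) (_ : Field K) (_ : Algebra ℂ K) (w : ℕ) (y : Fin (n + 1) → K),
          IsClosure F p K w y) ∧
        ∀ (K : Type) [Field K] [Algebra ℂ K] (w : ℕ) (y : Fin (n + 1) → K),
          IsClosure F p K w y → 0 < w ∧ ¬ GeneralType ℂ K w) ∧
      ∀ (K : Type) [Field K] [Algebra ℂ K] (w : ℕ) (y : Fin (n + 1) → K), SubVar F K w y →
        GeneralType ℂ K w → PseudoBounded y ∧
          ∀ p : ℂ → PS n, HolMap p → (∀ z, (p z).rep ∈ VarPts ℂ y) → (∃ z w, p z ≠ p w) →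
            ∃ G : MvPolynomial (Fin (n + 1)) ℂ, IsForm G ∧ val y G ≠ 0 ∧ Van p G) ∧
    ∀ d : ℕ, 0 < d → (∀ j, SymForm F d (σ j)) → Generates F d σ →
      ∀ (K : Type) [Field K] [Algebra ℂ K] (w : ℕ) (y : Fin (n + 1) → K), 0 < w →
        SubVar F K w y → [GeneralType ℂ K w, PseudoBrody y, PseudoBounded y].TFAE := by
  refine ⟨fun m hm hσ him => ⟨fun p hp hpF hne => E.thm_closure hF hm hσ him hp hpF hne,
    fun K _ _ w y hy hgt => ⟨U.uniform hF hm hσ him hy hgt,
      fun p hp hpV hne => E.thm_van hF hm hσ him hy hgt hp hpV hne⟩⟩,
    fun d hd hσ hgen K _ _ w y hw hy => ?_⟩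
  tfae_have 1 ↔ 2 := E.thm_iff hF hd hσ hgen hw hy
  tfae_have 1 ↔ 3 := U.general_iff_bounded hF hd hσ hgen hw hy
  tfae_finish

end Pool.Agent.Results.MP_2a5ae2_ag.GreenGriffithsLang
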