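import Pool.Agent.Run7.h830.CS.Main

/-!
# Entire curves in varieties which carry a map with many preperiodic points

`X` is a complex projective variety (an integral closed subvariety of a projective space, possibly
singular) of any dimension `w`, given by its function field `K` and the homogeneous coordinates `x` of its
generic point: `coords ℂ x = ⊤` says that the ratios of the coordinates generate `K`. `f = p / q` is a
rational map of degree `d` of the projective line over `K`, that is, a family of rational maps of degree
`d` over an open subset of `X`; `prePer d p q` is the set of the preperiodic points of `f` in `P^1(K)`,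
that is, of the preperiodic rational sections of the family.

`MaxVar ℂ d p q` (`Pool/Agent/Q103/EC/Mxv.lean`): the moduli map `X ⇢ M_d` is generically finite: if `f` is
conjugate over an algebraic closure of `K` to a map with coefficients algebraic over a field between `ℂ`
and `K`, then `K` is algebraic over this field.

`ModuliFibration d p q E` (`Pool/Agent/Q103/VR/Stm.lean`): the field `E` between `ℂ` and `K`, algebraically
closed in `K`, is the smallest field over whose algebraic closure `f` is defined up to conjugation; `f` is
conjugate over `K` to a map over `E` and its preperiodic points correspond to points of `P^1(E)`. So `E` is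
the function field of the base `Y` of a rational fibration `X ⇢ Y`, the moduli fibration of `f`, with
irreducible general fibres, and the dimension `v` of `Y` is the variation of `f`.

`HypOff y R` (`Pool/Agent/Q103/EC/Hyp.lean`): the closed subset `Z = {R = 0}` of the projective variety with
the generic point `y` is proper; it contains all entire curves (`EntireCurve`: nonconstant holomorphic maps
from `ℂ`), and the images of all holomorphic maps from the punctured disc with an essential singularity, of
all nonconstant meromorphic maps from the spaces `ℂ ^ g` and of all nonconstant maps from the multiplicative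
group; all closed subvarieties of positive dimension which are not contained in `Z` are of general type;
for each pointed curve there are only finitely many morphisms with a given value outside `Z` at the marked
point; the degree of the morphisms from curves of genus `g`, with an image not contained in `Z`, is at most
`A * max (2 * g - 2) 0`; and the Kobayashi pseudodistance of two different points which are not both in `Z`
is positive. `GeneralType ℂ E v`: for some `N > 0` there are `N`-canonical forms of the function field `E`,
regular at all prime divisors of all models, with `v` algebraically independent ratios.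

Theorem. For every `d ≥ 2` there is a number `B` such that the following holds for all complex projective
varieties `X` and all rational maps `f` of degree `d` over `K` with at least `B` preperiodic points in
`P^1(K)`, with the moduli fibration `X ⇢ Y`, if it is not constant (i.e. `f` is not isotrivial).

(1) `Y` is of general type, and each projective model of `Y` is hyperbolic modulo a proper closed subset
(`HypOff`), in particular pseudo-Brody hyperbolic. If the moduli map `X ⇢ M_d` is generically finite then
`Y = X`, and so `X` is of general type and pseudo-Brody hyperbolic: Q1 holds for `X`.

(2) For each projective model of `Y` with the generic point `y`, all entire curves in `X` which are not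
contained in a certain proper closed subset `{R = 0}` of `X` lie in the fibres of `X ⇢ Y`: the forms `A i`
give the rational map `X ⇢ Y`, and `ConstCurve` says that the image of the curve is constant.

Earlier: for varieties over number fields with a generically finite moduli map, the part of (1) on `X`
(except for the maps from discs, tori and the spaces `ℂ ^ g`) is contained in the starting file
`MP_7ede32_ag.OneSetForPointsAndCurves`. For all complex varieties (1) with a generically finite moduli map
is the theorem `Pool.Agent.Q103.EC.main` of helper103 and others, which was not handed in; the moduli
fibration is from `Pool.Agent.Q103.VR.fibration`.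

Proof. The cross ratios of the preperiodic points give symmetric differentials and functions with zeros of
high order; meromorphic functions satisfy the same estimates (Nevanlinna theory), so a map over the field
of meromorphic functions with many preperiodic points is isotrivial (projects GT, EC, KO, VR).
-/

set_option autoImplicit false

namespace Pool.Agent.Results.MP_2a5ae2_ag.ManyPreperiodicPoints

open Polynomial
open Pool.Agent.W602.GT
open Pool.Agent.N115.JS (ConstCurve)
open Pool.Agent.Y221.BD (EntireCurve)
open Pool.Agent.Q103.EC (prePer MaxVar HypOff Isotrivial)
open Pool.Agent.Q103.VR (ModuliFibration IsVariation)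

/-- **Entire curves in varieties which carry a map with many preperiodic points.** -/
theorem result (d : ℕ) (hd : 2 ≤ d) :
    ∃ B : ℕ, ∀ (K : Type) [Field K] [Algebra ℂ K] (w : ℕ), Algebra.trdeg ℂ K = w →
      ∀ p q : K[X], IsCoprime p q → max p.natDegree q.natDegree = d →
      (B : ℕ∞) ≤ (prePer d p q).encard → ¬ Isotrivial ℂ d p q →
      ∃ (E : IntermediateField ℂ K) (v : ℕ), ModuliFibration d p q E ∧ 1 ≤ v ∧ v ≤ w ∧
        Algebra.trdeg ℂ E = v ∧ (MaxVar ℂ d p q → E = ⊤) ∧
        -- (1) the base
        GeneralType ℂ E v ∧
        ∀ (N : ℕ) (y : Fin (N + 1) → E), y ≠ 0 → coords ℂ y = ⊤ → (∃ R, HypOff y R) ∧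
        -- (2) the entire curves in `X`
        ∀ (M : ℕ) (x : Fin (M + 1) → K), x ≠ 0 → coords ℂ x = ⊤ →
        ∃ (R : MvPolynomial (Fin (M + 1)) ℂ) (A : Fin (N + 1) → MvPolynomial (Fin (M + 1)) ℂ)
          (e : ℕ) (t : K), IsForm R ∧ val x R ≠ 0 ∧ (∀ i, (A i).IsHomogeneous e) ∧ t ≠ 0 ∧
          (∀ i, val x (A i) = t * (y i : K)) ∧
          ∀ f, EntireCurve x f → (∃ s, MvPolynomial.eval (fun i => f i s) R ≠ 0) →
            ConstCurve fun i s => MvPolynomial.eval (fun j => f j s) (A i) := by
  obtain ⟨B, hB⟩ := Pool.Agent.Run7.h830.CS.fib d hd
  refine ⟨B, fun K _ _ w hw p q hco hmax hmany hiso => ?_⟩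
  obtain ⟨E, v, hE, hv, htr, hvar, h1⟩ := hB K p q hco hmax hmany w hw
  have hv1 : 1 ≤ v := by
    rcases Nat.eq_zero_or_pos v with h0 | h0
    · exfalso
      apply hiso
      have hbot : E = ⊥ := Pool.Agent.Run7.h830.CS.bot_of_trdeg E (by rw [htr, h0, Nat.cast_zero])
      rw [hbot] at hE
      exact Pool.Agent.Run7.h830.CS.isotrivial_of_bot hE
    · exact h0
  obtain ⟨hg, hh⟩ := h1 hv1
  refine ⟨E, v, hE, hv1, hv, htr, fun hm => ?_, hg, fun N y hy hygen => ⟨hh N y hy hygen,
    fun M x hx hgen => Pool.Agent.Run7.h830.CS.fibres hx hgen hy (hh N y hy hygen)⟩⟩
  obtain ⟨p', q', a, b, c, e, h2, h3, h4, h5, h6⟩ := hE.defined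
  have h7 := hm E p' q' a b c e h2 h3 h4 h5 h6
  rw [eq_top_iff]
  intro u _
  exact hE.closed u (h7.isAlgebraic u)

end Pool.Agent.Results.MP_2a5ae2_ag.ManyPreperiodicPoints
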